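import Pool.Agent.H89.FM.Targets2

/-!
# The bound of the Epstein zeta functions with complex parameters
-/

set_option autoImplicit false

namespace Pool.Agent.H70.FM

open MeasureTheory Set Filter
open Pool.Agent.H31.CN Pool.Agent.H89.FM
open scoped Real Matrix MatrixGroups

open Classical in
theorem pf_ECB (hKCB : T_KCB) (hQCB : T_QCB) (hLSM : T_LSM) : T_ECB := by
  intro κ hκ hκ8
  obtain ⟨C₁, k, hC₁, h1⟩ := hKCB
  obtain ⟨c, C₀, hc, hc1, hC₀, h2⟩ := hQCB
  obtain ⟨C₂, hC₂, h3⟩ := hLSM κ hκ hκ8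
  refine ⟨C₁ * C₂ / c ^ 2, k + 1, by positivity, ?_⟩
  intro ρ n L s x y hρ hn hL hs hR
  have hn' : (0 : ℝ) < n := by exact_mod_cast hn
  have hT0 : 1 ≤ 1 + |s.im| := by linarith [abs_nonneg s.im]
  have hT0' : 0 < 1 + |s.im| := by linarith
  set T : ℝ := (1 + |s.im|) / c with hT
  have hT1 : 1 ≤ T := by
    rw [hT, le_div_iff₀ hc]
    linarith
  obtain ⟨hsum, hle⟩ := h3 ρ T n L hρ hT1 hn hL
  set g : ℤ × ℤ → ℝ := fun v => if v ∈ L ∧ v ≠ 0 then
      (nr ρ v / n) ^ (-(1 / 2 + κ)) * Real.exp (-(nr ρ v / (n * T))) else 0 with hg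
  set K : ℝ := C₁ * (1 + |s.im|) ^ k * Real.exp (-(π / 2 * |s.im|)) * c⁻¹ with hK
  have hK0 : 0 ≤ K := by positivity
  have hb : ∀ v : ℤ × ℤ, ‖(if v ∈ L ∧ v ≠ 0 then Kc (tu s.im) s (qc x y v / n) else 0 : ℂ)‖ ≤
      K * g v := by
    intro v
    by_cases hv : v ∈ L ∧ v ≠ 0
    · rw [hg]
      simp only [if_pos hv]
      obtain ⟨q1, q2, q3, q4⟩ := h2 ρ s.im x y v hρ hR hv.2
      have hre : (qc x y v / n).re = (qc x y v).re / n := Complex.div_natCast_re _ _
      have him : (qc x y v / n).im = (qc x y v).im / n := Complex.div_natCast_im _ _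
      have hr0 : 0 < (qc x y v / n).re := by
        rw [hre]
        exact div_pos q1 hn'
      have hri : 10 * (1 + |s.im|) * |(qc x y v / n).im| ≤ (qc x y v / n).re := by
        rw [hre, him, abs_div, abs_of_pos hn', ← mul_div_assoc]
        exact div_le_div_of_nonneg_right q2 hn'.le
      have h4 := (h1 κ s (qc x y v / n) hκ.le hκ8 hs hr0 hri).2
      have hnr : 0 < nr ρ v := by
        by_contra hneg
        push Not at hneg
        have : C₀ * nr ρ v ≤ 0 := mul_nonpos_of_nonneg_of_nonpos (by linarith) hneg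
        linarith
      have hw : 0 < nr ρ v / n := div_pos hnr hn'
      have hcw : c * (nr ρ v / n) ≤ (qc x y v / n).re := by
        rw [hre, ← mul_div_assoc]
        exact div_le_div_of_nonneg_right q3 hn'.le
      have h5 : (qc x y v / n).re ^ (-(1 / 2 + κ)) ≤ c⁻¹ * (nr ρ v / n) ^ (-(1 / 2 + κ)) := by
        calc (qc x y v / n).re ^ (-(1 / 2 + κ)) ≤ (c * (nr ρ v / n)) ^ (-(1 / 2 + κ)) :=
              Real.rpow_le_rpow_of_nonpos (by positivity) hcw (by linarith)
          _ = c ^ (-(1 / 2 + κ)) * (nr ρ v / n) ^ (-(1 / 2 + κ)) :=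
              Real.mul_rpow hc.le hw.le
          _ ≤ c⁻¹ * (nr ρ v / n) ^ (-(1 / 2 + κ)) := by
              refine mul_le_mul_of_nonneg_right ?_ (Real.rpow_nonneg hw.le _)
              rw [← Real.rpow_neg_one c]
              exact Real.rpow_le_rpow_of_exponent_ge hc hc1 (by linarith)
      have h6 : Real.exp (-((qc x y v / n).re / (1 + |s.im|))) ≤
          Real.exp (-(nr ρ v / (n * T))) := by
        apply Real.exp_le_exp.2
        apply neg_le_neg
        have h7 : nr ρ v / (n * T) = c * (nr ρ v / n) / (1 + |s.im|) := by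
          rw [hT]
          field_simp
        rw [h7]
        exact div_le_div_of_nonneg_right hcw hT0'.le
      calc ‖Kc (tu s.im) s (qc x y v / n)‖ ≤ C₁ * (1 + |s.im|) ^ k *
            Real.exp (-(π / 2 * |s.im|)) * (qc x y v / n).re ^ (-(1 / 2 + κ)) *
            Real.exp (-((qc x y v / n).re / (1 + |s.im|))) := h4
        _ ≤ C₁ * (1 + |s.im|) ^ k * Real.exp (-(π / 2 * |s.im|)) *
            (c⁻¹ * (nr ρ v / n) ^ (-(1 / 2 + κ))) * Real.exp (-(nr ρ v / (n * T))) := by
            refine mul_le_mul ?_ h6 (Real.exp_nonneg _) ?_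
            · exact mul_le_mul_of_nonneg_left h5 (by positivity)
            · have := Real.rpow_nonneg hw.le (-(1 / 2 + κ))
              positivity
        _ = K * ((nr ρ v / n) ^ (-(1 / 2 + κ)) * Real.exp (-(nr ρ v / (n * T)))) := by
            rw [hK]
            ring
    · rw [hg]
      simp only [if_neg hv]
      simp
  have h8 : ‖Ec s n L x y‖ ≤ K * ∑' v, g v :=
    tsum_of_norm_bounded (hsum.hasSum.mul_left K) hb
  have hm : (0 : ℝ) ≤ (n / mn ρ L) ^ (1 / 2 + κ) := by
    have h9 : 0 ≤ ∑' v, g v := tsum_nonneg fun v => by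
      rw [hg]
      by_cases hv : v ∈ L ∧ v ≠ 0
      · simp only [if_pos hv]
        have : 0 ≤ nr ρ v / n := by
          unfold nr
          positivity
        exact mul_nonneg (Real.rpow_nonneg this _) (Real.exp_nonneg _)
      · simp only [if_neg hv]
        exact le_rfl
    have hmn : 0 ≤ mn ρ L := by
      unfold mn
      apply Real.sInf_nonneg
      rintro _ ⟨v, -, rfl⟩
      unfold nr
      positivity
    exact Real.rpow_nonneg (div_nonneg hn'.le hmn) _
  calc ‖Ec s n L x y‖ ≤ K * ∑' v, g v := h8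
    _ ≤ K * (C₂ * T * (n / mn ρ L) ^ (1 / 2 + κ)) := mul_le_mul_of_nonneg_left hle hK0
    _ = C₁ * C₂ / c ^ 2 * (1 + |s.im|) ^ (k + 1) * Real.exp (-(π / 2 * |s.im|)) *
        (n / mn ρ L) ^ (1 / 2 + κ) := by
        rw [hK, hT]
        generalize (n / mn ρ L) ^ (1 / 2 + κ) = A
        generalize Real.exp (-(π / 2 * |s.im|)) = E
        generalize 1 + |s.im| = B
        have hc' : c ≠ 0 := hc.ne'
        field_simp
        ring

end Pool.Agent.H70.FM
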